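import Pool.Agent.H37.RR.Red
import Pool.Agent.H8.RZ.FRZ
import Pool.Agent.H8.RZ.PRZ

/-! # One class: the radical `(p/q)^(1/r)` with `|p - q| ≤ q^(1-lam)`, `r lam > 2`

`anchor_plus`: all curves of degree at most `d` whose real points at infinity carry an `r`-th root of
`p/q` have all their integer points bounded by `(q H)^C`. `far_z` with one pointed curve. -/

namespace Pool.Agent.H37.RR

open Finset Polynomial Pool.Agent.H72.ES Pool.Agent.H87.SA2 Pool.Agent.H8.AW Pool.Agent.H52.AC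
  Pool.Agent.H34.AC Pool.Agent.H97.NW Pool.Agent.H8.RZ

private theorem ap_one {N : ℕ} (P : Fin 1 → Ptd N) (Q0 : Ptd N) (e0 : P 0 = Q0)
    (φ : Ptd N → Prop) (h0 : φ Q0) (v : Fin 1) : φ (P v) := by
  match v with
  | 0 => rw [e0]; exact h0

/-- one radical pointed curve: bounded -/
theorem one_rpt (r n : ℕ) (hr : 1 ≤ r) (hn : 4 ≤ n) (lam : ℝ) (hlam : 0 < lam)
    (hlam1 : lam ≤ 1) (hrl : 2 < r * lam) :
    ∃ c : ℕ, cA n ≤ c ∧ ∀ (p q : ℕ), NP lam p q → ∀ (b : ℚ), 0 < b → b * (q : ℚ) = (p : ℚ) →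
      ∀ (Q : RPt r n b), Q.P.Thr c → (c : ℝ) ≤ Real.log q → c * Real.log q ≤ Q.P.ell → False := by
  obtain ⟨γ, hγdef⟩ : ∃ γ : ℝ, γ = (r * lam) / 2 - 1 := ⟨_, rfl⟩
  have hγ : 0 < γ := by rw [hγdef]; linarith
  have hγr : (1 + γ) * 4 = 2 * (r * lam) := by rw [hγdef]; ring
  obtain ⟨R, c, hR, hc, hfar⟩ := far_z 1 n r le_rfl hn hr lam hlam hlam1 γ hγ
  refine ⟨c, hc, ?_⟩
  intro p q hNP b hb hbq Q hT hcq hell
  obtain ⟨P, e0, PP, hst, hnear, ⟨Z⟩, hcard⟩ := one_z hr hb hbq Q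
  have hcardR : (PP.card : ℝ) ≤ ∏ v, ((P v).d : ℝ) := by exact_mod_cast hcard
  refine hfar P PP hst hnear ?_ p q hNP Z ?_ hcq ?_ ?_
  · have h2 : (1 + γ) * ((((1 : ℕ) : ℝ) + 1) ^ (1 + 1) * (PP.card : ℝ)) =
        ((1 + γ) * 4) * PP.card := by
      push_cast
      ring
    have h3 : ((1 + 1).factorial : ℝ) * (r * lam * ∏ v, ((P v).d : ℝ)) =
        ((1 + γ) * 4) * ∏ v, ((P v).d : ℝ) := by
      rw [hγr]
      have : ((1 + 1).factorial : ℝ) = 2 := by norm_num [Nat.factorial]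
      rw [this]
      ring
    rw [h2, h3]
    exact mul_le_mul_of_nonneg_left hcardR (by positivity)
  · exact ap_one P _ e0 (fun Q => Q.Thr c) hT
  · exact ap_one P _ e0 (fun Q => c * Real.log q ≤ Q.ell) hell
  · intro i j hij
    exact absurd hij (by rw [Subsingleton.elim i j]; exact lt_irrefl _)

theorem anchor_plus (r d : ℕ) (lam : ℝ) (hlam : 0 < lam) (hlam1 : lam ≤ 1) (hrl : 2 < r * lam) :
    ∃ C : ℕ, ∀ p q : ℕ, NP lam p q → C ≤ q → ∀ F : MvPolynomial (Fin 2) ℤ,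
      Irreducible (MvPolynomial.map (Int.castRingHom ℚ) F) → F.totalDegree ≤ d →
      INFN r ((p : ℚ) / q) F → ∀ H : ℕ, 2 ≤ H → (∀ m, |F.coeff m| ≤ (H : ℤ)) →
      ∀ x y : ℤ, vl F x y = 0 → max x.natAbs y.natAbs ≤ (q * H) ^ C := by
  have hr : 1 ≤ r := by
    by_contra h
    have : r = 0 := by omega
    rw [this] at hrl
    simp at hrl
    linarith
  obtain ⟨n, hndef⟩ : ∃ n, n = max d 3 := ⟨_, rfl⟩
  have hn3 : 3 ≤ n := hndef ▸ le_max_right _ _
  have hdn : d ≤ n := hndef ▸ le_max_left _ _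
  have hN4 : 4 ≤ n * (n + 1) := by nlinarith
  obtain ⟨c, hc, hone⟩ := one_rpt r (n * (n + 1)) hr hN4 lam hlam hlam1 hrl
  obtain ⟨E, hE⟩ := exists_nat_ge (Real.exp c)
  obtain ⟨C, hC⟩ : ∃ C, C = cR n * c * (2 * n + 3) + c * (2 * n + 3) + E := ⟨_, rfl⟩
  refine ⟨C, ?_⟩
  intro p q hNP hCq F hirr hdeg hinf H hH2 hH x y h0
  by_contra hcon
  push Not at hcon
  have hq1 : 1 ≤ q := hNP.q1
  have hp1 : 1 ≤ p := hNP.p1
  have hqR : (0 : ℝ) < q := by exact_mod_cast hq1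
  have hb : (0 : ℚ) < (p : ℚ) / q := by
    have h1 : (0 : ℚ) < p := by exact_mod_cast hp1
    have h2 : (0 : ℚ) < q := by exact_mod_cast hq1
    positivity
  have hbq : (p : ℚ) / q * (q : ℚ) = (p : ℚ) := by
    have h2 : (q : ℚ) ≠ 0 := by exact_mod_cast (by omega : q ≠ 0)
    field_simp
  have hqH1 : 1 ≤ q * H := Nat.mul_pos hq1 (by omega)
  have hbig : H ^ (cR n * c * (2 * n + 3)) < max x.natAbs y.natAbs := by
    refine lt_of_le_of_lt ?_ hcon
    calc H ^ (cR n * c * (2 * n + 3)) ≤ (q * H) ^ (cR n * c * (2 * n + 3)) :=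
          Nat.pow_le_pow_left (Nat.le_mul_of_pos_left H hq1) _
      _ ≤ (q * H) ^ C := Nat.pow_le_pow_right hqH1 (by omega)
  obtain ⟨Q, hT, hQ⟩ := redP r n hr hn3 c hc _ hb F hirr (hdeg.trans hdn) hinf H hH2 hH x y h0 hbig
  have hcq : (c : ℝ) ≤ Real.log q := by
    rw [Real.le_log_iff_exp_le hqR]
    refine hE.trans ?_
    have : E ≤ q := by omega
    exact_mod_cast this
  have hell : c * Real.log q ≤ Q.P.ell := by
    have h1 : (q : ℝ) ^ (c * (2 * n + 3)) ≤ |(Q.P.x : ℝ)| ^ (2 * n + 3) := by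
      refine le_trans ?_ hQ
      have h2 : q ^ (c * (2 * n + 3)) ≤ max x.natAbs y.natAbs := by
        refine le_of_lt (lt_of_le_of_lt ?_ hcon)
        calc q ^ (c * (2 * n + 3)) ≤ (q * H) ^ (c * (2 * n + 3)) :=
              Nat.pow_le_pow_left (Nat.le_mul_of_pos_right q (by omega)) _
          _ ≤ (q * H) ^ C := Nat.pow_le_pow_right hqH1 (by omega)
      exact_mod_cast h2
    have h3 : (q : ℝ) ^ c ≤ |(Q.P.x : ℝ)| := by
      rw [pow_mul] at h1
      exact (pow_le_pow_iff_left₀ (by positivity) (abs_nonneg _) (by omega)).1 h1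
    unfold Ptd.ell
    rw [← Real.log_pow]
    exact Real.log_le_log (by positivity) h3
  exact hone p q hNP _ hb hbq Q hT hcq hell

end Pool.Agent.H37.RR
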