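import Pool.Agent.H97.NW.THS
import Pool.Agent.H97.NW.REB
import Pool.Agent.H97.NW.PTB
import Pool.Agent.H8.AF.Fin

/-! # Labels at infinity for every positive rational number

`kb r β`: the number field generated by the positive `r`-th root of `β > 0` (no irreducibility of
`X^r - β` is needed). A number field `K` with a real embedding and with an `r`-th root of `β` contains
`kb r β` (change the sign of the root if its real image is negative). -/

namespace Pool.Agent.H37.RR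

open Finset Polynomial Pool.Agent.H72.ES Pool.Agent.H87.SA2 Pool.Agent.H8.AW Pool.Agent.H52.AC
  Pool.Agent.H34.AC Pool.Agent.H97.NW

/-- a number field with a distinguished `r`-th root of `β` that embeds in every number field with a
real embedding and an `r`-th root of `β` -/
theorem exists_kb (r : ℕ) (hr : 1 ≤ r) (β : ℚ) (hβ : 0 < β) :
    ∃ (k : Type) (_ : Field k) (_ : NumberField k) (t : k), t ^ r = (β : k) ∧
      ∀ (K : Type) [Field K] [NumberField K], Nonempty (K →+* ℝ) → (∃ θ : K, θ ^ r = (β : K)) →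
        Nonempty (k →+* K) := by
  obtain ⟨ρ, hρ⟩ : ∃ ρ : ℝ, ρ = ((β : ℚ) : ℝ) ^ ((1 : ℝ) / r) := ⟨_, rfl⟩
  have hβR : (0 : ℝ) < ((β : ℚ) : ℝ) := by exact_mod_cast hβ
  have hρ0 : 0 < ρ := by rw [hρ]; positivity
  have hr0 : (r : ℝ) ≠ 0 := by
    have : (0 : ℝ) < r := by exact_mod_cast hr
    exact this.ne'
  have hρr : ρ ^ r = ((β : ℚ) : ℝ) := by
    rw [hρ, ← Real.rpow_natCast, ← Real.rpow_mul hβR.le, one_div, inv_mul_cancel₀ hr0, Real.rpow_one]
  have hint : IsIntegral ℚ ρ := by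
    refine IsIntegral.of_pow (by omega : 0 < r) ?_
    rw [hρr]
    have h3 : ((β : ℚ) : ℝ) = algebraMap ℚ ℝ β := (eq_ratCast (algebraMap ℚ ℝ) β).symm
    rw [h3]
    exact isIntegral_algebraMap
  have hirr := minpoly.irreducible hint
  have hfact : Fact (Irreducible (minpoly ℚ ρ)) := ⟨hirr⟩
  have hFD : FiniteDimensional ℚ (AdjoinRoot (minpoly ℚ ρ)) :=
    (AdjoinRoot.powerBasis hirr.ne_zero).finite
  have hNF : NumberField (AdjoinRoot (minpoly ℚ ρ)) :=
    { to_charZero := charZero_of_injective_algebraMap (algebraMap ℚ _).injective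
      to_finiteDimensional := hFD }
  have hdvd : minpoly ℚ ρ ∣ (X ^ r - C β : ℚ[X]) := by
    refine minpoly.dvd ℚ ρ ?_
    rw [map_sub, map_pow, aeval_X, aeval_C, hρr, eq_ratCast, sub_self]
  refine ⟨AdjoinRoot (minpoly ℚ ρ), inferInstance, hNF, AdjoinRoot.root (minpoly ℚ ρ), ?_, ?_⟩
  · have h1 : (X ^ r - C β : ℚ[X]).eval₂ (AdjoinRoot.of (minpoly ℚ ρ))
        (AdjoinRoot.root (minpoly ℚ ρ)) = 0 := by
      obtain ⟨g, hg⟩ := hdvd
      rw [hg, eval₂_mul, AdjoinRoot.eval₂_root, zero_mul]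
    rw [eval₂_sub, eval₂_X_pow, eval₂_C, sub_eq_zero] at h1
    rw [h1]
    exact eq_ratCast (AdjoinRoot.of (minpoly ℚ ρ)) β
  · intro K _ _ hK hθ
    obtain ⟨σ⟩ := hK
    obtain ⟨θ, hθ⟩ := hθ
    -- an `r`-th root whose real image is `ρ`
    obtain ⟨θ', hθ'⟩ : ∃ θ' : K, σ θ' = ρ := by
      have h1 : σ θ ^ r = ρ ^ r := by
        rw [← map_pow, hθ, hρr, map_ratCast]
      have h2 : |σ θ| = ρ := by
        have h3 : |σ θ| ^ r = ρ ^ r := by rw [← abs_pow, h1, abs_pow, abs_of_pos hρ0]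
        exact (pow_left_inj₀ (abs_nonneg _) hρ0.le (by omega)).1 h3
      rcases abs_choice (σ θ) with h3 | h3
      · exact ⟨θ, h3.symm.trans h2⟩
      · refine ⟨-θ, ?_⟩
        rw [map_neg]
        exact h3.symm.trans h2
    refine ⟨AdjoinRoot.lift (algebraMap ℚ K) θ' ?_⟩
    apply σ.injective
    rw [hom_eval₂, map_zero, hθ']
    have h4 : σ.comp (algebraMap ℚ K) = algebraMap ℚ ℝ := Subsingleton.elim _ _
    rw [h4]
    exact minpoly.aeval ℚ ρ

/-- the labels of the branches -/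
theorem exists_ThS' (r : ℕ) (β : ℚ) (k : Type) [Field k] [NumberField k] (t : k)
    (ht : t ^ r = (β : k)) {f : ℤ[X][X]} {d : ℕ} (pd : PData f d) (hinf : INF1R k f) :
    Nonempty (ThS r β pd) := by
  obtain ⟨S, kap, h1, h2, h3⟩ := exists_kapR k hinf pd
  refine ⟨⟨S, fun i => kap i t, ?_, h1, ?_, ?_⟩⟩
  · intro i
    rw [← map_pow, ht, map_ratCast]
  · intro σ i hi j h
    obtain ⟨h4, h5⟩ := h2 σ i hi j h
    exact ⟨h4, fun a ha => h5 _ a ha⟩
  · intro ζ i hi j hζ h
    obtain ⟨h4, h5⟩ := h3 ζ i hi j hζ h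
    exact ⟨h4, by rw [h5]⟩

end Pool.Agent.H37.RR
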