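import Pool.Agent.H97.NW.COV
import Pool.Agent.H97.NW.GRW
import Pool.Agent.H97.NW.CBD
import Pool.Agent.H97.NW.INO
import Pool.Agent.H97.NW.IRQ

/-! # The plane model attached to a special pair, without irreducibility of `X^r - ω`

`infn_cover`, `planeN`: as `infr_cover` (`Pool/Agent/H97/NW/INO.lean`) and `plane` (`PLM.lean`), the
real points at infinity of the plane model carry an `r`-th root of `ω`. -/

namespace Pool.Agent.H37.RR

open Finset Polynomial Pool.Agent.H72.ES Pool.Agent.H34.AC H4AR Pool.Agent.H97.NW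

private theorem int_range {K : Type} [Field K] {W : LaurentSeries K}
    (h : IsIntegral (PowerSeries K) W) : W ∈ (HahnSeries.ofPowerSeries ℤ K).range := by
  obtain ⟨y, hy⟩ := IsIntegrallyClosed.isIntegral_iff.1 h
  exact ⟨y, hy⟩

private theorem W_range {K : Type} [Field K] {f : ℤ[X][X]} (hf : f.Monic) {U W : LaurentSeries K}
    (hU : U ∈ (HahnSeries.ofPowerSeries ℤ K).range) (h : Lam U W f = 0) :
    W ∈ (HahnSeries.ofPowerSeries ℤ K).range := by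
  obtain ⟨u, rfl⟩ := hU
  refine int_range ⟨f.map (eval₂RingHom (Int.castRingHom (PowerSeries K)) u), hf.map _, ?_⟩
  rw [eval₂_map]
  have h1 : (algebraMap (PowerSeries K) (LaurentSeries K)).comp
      (eval₂RingHom (Int.castRingHom (PowerSeries K)) u)
      = eval₂RingHom (Int.castRingHom (LaurentSeries K)) (HahnSeries.ofPowerSeries ℤ K u) := by
    refine Polynomial.ringHom_ext (fun a => ?_) ?_
    · simp
    · simp [LaurentSeries.coe_algebraMap]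
  rw [h1]
  exact h

private theorem U_range {K : Type} [Field K] [CharZero K] {U : LaurentSeries K} {q : ℤ[X]}
    (hq : q ≠ 0) (h : q.eval₂ (Int.castRingHom (LaurentSeries K)) U = 0) :
    U ∈ (HahnSeries.ofPowerSeries ℤ K).range := by
  have hc : (q.leadingCoeff : K) ≠ 0 := by
    rw [Int.cast_ne_zero]
    exact leadingCoeff_ne_zero.2 hq
  have hb : PowerSeries.C ((q.leadingCoeff : K)⁻¹) *
      Int.castRingHom (PowerSeries K) q.leadingCoeff = 1 := by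
    have h1 : Int.castRingHom (PowerSeries K) q.leadingCoeff
        = PowerSeries.C (q.leadingCoeff : K) := by
      rw [map_intCast]
      rfl
    rw [h1, ← map_mul, inv_mul_cancel₀ hc, map_one]
  have hl : (q.map (Int.castRingHom (PowerSeries K))).leadingCoeff
      = Int.castRingHom (PowerSeries K) q.leadingCoeff :=
    leadingCoeff_map_of_leadingCoeff_ne_zero _ (right_ne_zero_of_mul (by
      rw [hb]
      exact one_ne_zero))
  refine int_range ⟨C (PowerSeries.C ((q.leadingCoeff : K)⁻¹)) *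
    q.map (Int.castRingHom (PowerSeries K)), ?_, ?_⟩
  · refine monic_C_mul_of_mul_leadingCoeff_eq_one ?_
    rw [hl]
    exact hb
  · rw [eval₂_mul, eval₂_map]
    have h1 : (algebraMap (PowerSeries K) (LaurentSeries K)).comp
        (Int.castRingHom (PowerSeries K)) = Int.castRingHom (LaurentSeries K) :=
      RingHom.ext_int _ _
    rw [h1, h, mul_zero]

theorem infn_cover (r : ℕ) (β ω : ℚ) (hβ : β ≠ 0) {d0 d1 : ℕ} {F0 F1 : ℕ → ℕ → ℤ}
    (h0 : InfX r β d0 F0) (h1 : InfX r (ω * β) d1 F1) (p : MvPolynomial (Fin 2) ℤ)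
    (hnm : ∀ (K : Type) [Field K] [CharZero K] (X Y : LaurentSeries K), vl p X Y = 0 →
      (X ∈ (HahnSeries.ofPowerSeries ℤ K).range ↔ Y ∈ (HahnSeries.ofPowerSeries ℤ K).range))
    {D M : ℕ} {Fp : ℕ → ℕ → ℤ} {a : ℤ} (ha : a ≠ 0)
    (hrel : ∀ (S : Type) [CommRing S] (x y : S),
      ev D (cst S Fp) (y + x ^ M) ((a : S) * x) = (a : S) ^ (D - 1) * vl p x y)
    (f : ℤ[X][X]) (hf : f.Monic)
    (hlift : ∀ (L : Type) [Field L] [CharZero L] (U W : L),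
      (∀ q : ℤ[X], q ≠ 0 → q.eval₂ (Int.castRingHom L) U ≠ 0) → Lam U W f = 0 →
      ∃ Z1 Z2 Z3 : L, Lam U Z1 (toP D Fp) = 0 ∧ (sc d0 F0 a X).eval₂ (Lam U Z1) Z2 = 0 ∧
        (sc d1 F1 (a ^ M) (C (C (a ^ M) * X) - X ^ M)).eval₂ (Lam U Z1) Z3 = 0) :
    INFN r ω (toB.symm f) := by
  intro K _ _ hreal U W hvl
  have hLam : Lam U W f = 0 := by
    rw [← lam_vl, AlgEquiv.apply_symm_apply] at hvl
    exact hvl
  by_cases hU : U ∈ (HahnSeries.ofPowerSeries ℤ K).range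
  · exact Or.inl ⟨hU, W_range hf hU hLam⟩
  right
  have hch : CharZero (LaurentSeries K) :=
    charZero_of_injective_ringHom (f := (HahnSeries.C : K →+* LaurentSeries K))
      HahnSeries.C_injective
  obtain ⟨Z1, Z2, Z3, g1, g2, g3⟩ := hlift (LaurentSeries K) U W
    (fun q hq h => hU (U_range hq h)) hLam
  have haL : (a : LaurentSeries K) ≠ 0 := Int.cast_ne_zero.2 ha
  set X0 : LaurentSeries K := Z1 / a with hX0
  set X1 : LaurentSeries K := U - X0 ^ M with hX1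
  have hU' : U = X1 + X0 ^ M := by rw [hX1]; ring
  have hZ : (a : LaurentSeries K) * X0 = Z1 := by
    rw [hX0]
    field_simp
  have hvp : vl p X0 X1 = 0 := by
    have h2 := hrel (LaurentSeries K) X0 X1
    rw [← hU', hZ, ← Lam_toP, g1] at h2
    have h3 := mul_eq_zero.1 h2.symm
    exact h3.resolve_left (pow_ne_zero _ haL)
  have hiff := hnm K X0 X1 hvp
  have hX0n : X0 ∉ (HahnSeries.ofPowerSeries ℤ K).range := by
    intro h2
    apply hU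
    rw [hU']
    exact add_mem (hiff.1 h2) (pow_mem h2 M)
  have hX1n : X1 ∉ (HahnSeries.ofPowerSeries ℤ K).range := fun h2 => hX0n (hiff.2 h2)
  have k0 := sc_field a haL X U Z1 Z2 g2
  have e0 : Lam U Z1 (X : ℤ[X][X]) = Z1 := by simp [Lam]
  rw [e0] at k0
  have haM : ((a ^ M : ℤ) : LaurentSeries K) ≠ 0 := by
    rw [Int.cast_pow]
    exact pow_ne_zero _ haL
  have k1 := sc_field (a ^ M) haM (C (C (a ^ M) * X) - X ^ M) U Z1 Z3 g3
  have e1 : Lam U Z1 (C (C (a ^ M) * X) - X ^ M : ℤ[X][X]) = (a : LaurentSeries K) ^ M * U - Z1 ^ M := by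
    rw [ino_Lam_CC, Int.cast_pow]
  have e2 : Lam U Z1 (C (C (a ^ M) * X) - X ^ M : ℤ[X][X]) / ((a ^ M : ℤ) : LaurentSeries K) = X1 := by
    rw [e1, Int.cast_pow, hX1, hX0, div_pow]
    field_simp
  rw [e2] at k1
  obtain ⟨θ0, hθ0⟩ := (h0 K hreal X0 (Z2 / a) k0).resolve_left hX0n
  obtain ⟨θ1, hθ1⟩ := (h1 K hreal X1 _ k1).resolve_left hX1n
  have hβK : (β : K) ≠ 0 := Rat.cast_ne_zero.2 hβ
  have hθ : (θ1 / θ0) ^ r = (ω : K) := by
    rw [div_pow, hθ0, hθ1, Rat.cast_mul]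
    field_simp
  exact ⟨_, hθ⟩

theorem planeN (n np : ℕ) : ∃ n' κ' : ℕ, 3 ≤ n' ∧ 1 ≤ κ' ∧ ∀ (r : ℕ) (β ω : ℚ) (_ : β ≠ 0) (d0 d1 : ℕ) (F0 F1 : ℕ → ℕ → ℤ)
    (_ : InfX r β d0 F0) (_ : InfX r (ω * β) d1 F1) (p : MvPolynomial (Fin 2) ℤ)
    (_ : ∀ (K : Type) [Field K] [CharZero K] (X Y : LaurentSeries K), vl p X Y = 0 →
      (X ∈ (HahnSeries.ofPowerSeries ℤ K).range ↔ Y ∈ (HahnSeries.ofPowerSeries ℤ K).range))
    (D M : ℕ) (Fp : ℕ → ℕ → ℤ) (a : ℤ) (_ : a ≠ 0)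
    (_ : ∀ (S : Type) [CommRing S] (x y : S),
      ev D (cst S Fp) (y + x ^ M) ((a : S) * x) = (a : S) ^ (D - 1) * vl p x y)
    (B : ℕ), d0 ≤ n → d1 ≤ n → D ≤ np → M ≤ np → 2 ≤ B →
    F0 0 d0 = 1 → F1 0 d1 = 1 → Fp 0 D = 1 → (∀ i j, |F0 i j| ≤ (B : ℤ)) →
    (∀ i j, |F1 i j| ≤ (B : ℤ)) → (∀ i j, |Fp i j| ≤ (B : ℤ)) → |a| ≤ (B : ℤ) →
    ∀ x0 y0 x1 y1 : ℤ, ev d0 F0 x0 y0 = 0 → ev d1 F1 x1 y1 = 0 → vl p x0 x1 = 0 →
    ∃ (f : MvPolynomial (Fin 2) ℤ) (w0 : ℤ), Irreducible (MvPolynomial.map (Int.castRingHom ℚ) f) ∧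
      f.totalDegree ≤ n' ∧ INFN r ω f ∧
      (∀ m, |f.coeff m| ≤ ((B ^ κ' : ℕ) : ℤ)) ∧ vl f (x1 + x0 ^ M) w0 = 0 := by
  obtain ⟨κ, hκ, hbd⟩ := cover_bd n np
  set N := np * n * n with hN
  refine ⟨max 3 ((κ + 1) * N), 2 * κ * N + κ * N + 1, le_max_left _ _, by omega, ?_⟩
  intro r β ω hβ d0 d1 F0 F1 h0 h1 p hnm D M Fp a ha hrel B hd0 hd1 hD hM hB hF0 hF1 hFp
    bF0 bF1 bFp ba x0 y0 x1 y1 z0 z1 zp
  have hcst : ∀ F : ℕ → ℕ → ℤ, cst ℤ F = F := fun F => by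
    funext i j
    exact Int.cast_id
  have e1 : Lam (x1 + x0 ^ M) (a * x0) (toP D Fp) = 0 := by
    have h2 := hrel ℤ x0 x1
    rw [zp, mul_zero] at h2
    rw [Lam_toP]
    exact h2
  have e2 : (sc d0 F0 a X).eval₂ (Lam (x1 + x0 ^ M) (a * x0)) (a * y0) = 0 := by
    have h2 := sc_int (d := d0) (F := F0) a (X : ℤ[X][X]) (x1 + x0 ^ M) (a * x0) x0 y0 (by simp [Lam])
    rw [hcst, z0, mul_zero] at h2
    exact h2
  have e3 : (sc d1 F1 (a ^ M) (C (C (a ^ M) * X) - X ^ M)).eval₂ (Lam (x1 + x0 ^ M) (a * x0))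
      (a ^ M * y1) = 0 := by
    have h2 := sc_int (d := d1) (F := F1) (a ^ M) (C (C (a ^ M) * X) - X ^ M : ℤ[X][X])
      (x1 + x0 ^ M) (a * x0) x1 y1 (by
        rw [ino_Lam_CC, Int.cast_id]
        ring)
    rw [hcst, z1, mul_zero] at h2
    exact h2
  obtain ⟨m1, dg1⟩ := toP_monic (d := D) (F := Fp) hFp
  obtain ⟨m2, dg2⟩ := sc_monic (d := d0) (F := F0) hF0 a X
  obtain ⟨m3, dg3⟩ := sc_monic (d := d1) (F := F1) hF1 (a ^ M) (C (C (a ^ M) * X) - X ^ M)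
  obtain ⟨μ, f, hμ, hfm, hfi, hfd, hfd1, hfz, hlast⟩ := cover (toP D Fp) (sc d0 F0 a X)
    (sc d1 F1 (a ^ M) (C (C (a ^ M) * X) - X ^ M)) m1 m2 m3 (x1 + x0 ^ M) (a * x0) (a * y0)
    (a ^ M * y1) e1 e2 e3
  rw [dg1, dg2, dg3] at hμ hfd
  have hDN : D * d0 * d1 ≤ N := Nat.mul_le_mul (Nat.mul_le_mul hD hd0) hd1
  have hμ' : μ ≤ (np * n * n) ^ 2 := hμ.trans (Nat.pow_le_pow_left hDN 2)
  have hfN : f.natDegree ≤ N := hfd.trans hDN
  have hB1 : (1 : ℝ) ≤ B := by exact_mod_cast (by omega : 1 ≤ B)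
  have hgrow := grow f hfm B hB1 κ hκ (by
    intro u w hu huw
    obtain ⟨Z1, Z2, Z3, q1, q2, q3, hw⟩ := hlast ℂ u w hu huw
    rw [hw]
    exact hbd d0 d1 D M μ F0 F1 Fp a B hd0 hd1 hD hM hμ' hB hF0 hF1 hFp bF0 bF1 bFp ba u Z1 Z2 Z3
      q1 q2 q3)
  have hcoeff : ∀ e : Fin 2 →₀ ℕ, (toB.symm f).coeff e = (f.coeff (e 1)).coeff (e 0) := by
    intro e
    have h2 := toB_coeff (toB.symm f) (e 0) (e 1)
    rw [AlgEquiv.apply_symm_apply] at h2
    rw [h2]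
    congr 1
    ext v
    fin_cases v
    · simp
    · simp
  refine ⟨toB.symm f, a * x0 + μ * (a * y0) + μ ^ 2 * (a ^ M * y1), irr_Q f hfi hfd1, ?_, ?_, ?_, ?_⟩
  · refine le_trans ?_ (le_max_right _ _)
    refine Finset.sup_le fun e he => ?_
    rw [MvPolynomial.mem_support_iff, hcoeff] at he
    have h2 : e 1 ≤ f.natDegree := by
      refine le_natDegree_of_ne_zero fun h3 => he ?_
      rw [h3, coeff_zero]
    have h3 : e 0 ≤ (f.coeff (e 1)).natDegree := le_natDegree_of_ne_zero he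
    have h4 := (hgrow (e 1)).1
    have h5 : κ * f.natDegree ≤ κ * N := Nat.mul_le_mul_left κ hfN
    have h6 : (e.sum fun _ k => k) = e 0 + e 1 := by
      rw [Finsupp.sum_fintype _ _ (fun _ => rfl), Fin.sum_univ_two]
    rw [h6]
    calc e 0 + e 1 ≤ κ * N + N := by omega
      _ = (κ + 1) * N := by ring
  · refine infn_cover r β ω hβ h0 h1 p hnm ha hrel f hfm ?_
    intro L _ _ U W hU hUW
    obtain ⟨Z1, Z2, Z3, q1, q2, q3, _⟩ := hlast L U W hU hUW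
    exact ⟨Z1, Z2, Z3, q1, q2, q3⟩
  · intro m
    rw [hcoeff]
    have h2 := (hgrow (m 1)).2 (m 0)
    have h3 : (4 * (B : ℝ)) ^ (κ * f.natDegree) ≤ (B : ℝ) ^ (2 * κ * N + κ * N + 1) := by
      have hB2 : (2 : ℝ) ≤ B := by exact_mod_cast hB
      have h4 : 4 * (B : ℝ) ≤ (B : ℝ) ^ 3 := by nlinarith [sq_nonneg ((B : ℝ) - 2)]
      calc (4 * (B : ℝ)) ^ (κ * f.natDegree) ≤ (4 * (B : ℝ)) ^ (κ * N) :=
            pow_le_pow_right₀ (by linarith) (Nat.mul_le_mul_left κ hfN)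
        _ ≤ ((B : ℝ) ^ 3) ^ (κ * N) := pow_le_pow_left₀ (by linarith) h4 _
        _ = (B : ℝ) ^ (3 * (κ * N)) := by rw [← pow_mul]
        _ ≤ (B : ℝ) ^ (2 * κ * N + κ * N + 1) := pow_le_pow_right₀ hB1 (by
            have : 2 * κ * N = 2 * (κ * N) := by ring
            omega)
    have h5 := h2.trans h3
    have h6 : ((|(f.coeff (m 1)).coeff (m 0)| : ℤ) : ℝ) ≤
        (((B ^ (2 * κ * N + κ * N + 1) : ℕ) : ℤ) : ℝ) := by
      push_cast
      exact h5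
    exact_mod_cast h6
  · rw [← lam_vl, AlgEquiv.apply_symm_apply]
    exact hfz

end Pool.Agent.H37.RR
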