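import Pool.Agent.H37.RR.Lab
import Pool.Agent.H97.NW.RDX

/-! # From an arbitrary curve to a radical pointed curve, without irreducibility of `X^r - β`

`redP`: as `redX` (`Pool/Agent/H97/NW/RDX.lean`), for every `r ≥ 1` and `β > 0`. If `F` does not contain
`y` the variables are exchanged. -/

namespace Pool.Agent.H37.RR

open Finset Polynomial Pool.Agent.H72.ES Pool.Agent.H87.SA2 Pool.Agent.H8.AW Pool.Agent.H52.AC
  Pool.Agent.H34.AC Pool.Agent.H97.NW

private theorem redP_y (r n : ℕ) (hr : 1 ≤ r) (hn : 3 ≤ n) (c : ℕ) (hc : cA (n * (n + 1)) ≤ c) (β : ℚ)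
    (hβ : 0 < β) (F : MvPolynomial (Fin 2) ℤ)
    (hirr : Irreducible (MvPolynomial.map (Int.castRingHom ℚ) F)) (hdeg : F.totalDegree ≤ n)
    (hy : ∃ m ∈ F.support, 1 ≤ m 1)
    (hinf : INFN r β F) (H : ℕ) (hH2 : 2 ≤ H) (hH : ∀ m, |F.coeff m| ≤ (H : ℤ)) (x y : ℤ)
    (h0 : vl F x y = 0) (hbig : H ^ (cR n * c * (2 * n + 3)) < max x.natAbs y.natAbs) :
    ∃ Q : RPt r (n * (n + 1)) β, Q.P.Thr c ∧
      ((max x.natAbs y.natAbs : ℕ) : ℝ) ≤ |(Q.P.x : ℝ)| ^ (2 * n + 3) := by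
  obtain ⟨k, _, _, t, ht, hk⟩ := exists_kb r hr β hβ
  have hINFR : INFR k F := by
    intro K _ _ hK X Y hXY
    rcases hinf K hK X Y hXY with h1 | h1
    · exact Or.inl h1
    · exact Or.inr (hk K hK h1)
  obtain ⟨d, b, F', a, ⟨Cc⟩, h4, hb, ha0, -, hev⟩ :=
    redB n hn F hirr hdeg hy H hH2 hH
  obtain ⟨m, hm⟩ : ∃ m, m = max x.natAbs y.natAbs := ⟨_, rfl⟩
  rw [← hm] at hbig ⊢
  have hN1 : 1 ≤ n * (n + 1) := Nat.mul_pos (by omega) (by omega)
  obtain ⟨hcA1, hcA2⟩ := H8.AF.cA_ge hN1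
  have hb2 : 2 ≤ b := Cc.b2
  have hevZ : ev d F' (y + x ^ (n + 1)) (a * x) = 0 := by
    have h := hev ℤ x y
    have hc' : cst ℤ F' = F' := by
      funext i j
      simp [cst]
    rw [hc', h0, mul_zero] at h
    simpa using h
  have hHm : b ^ (c * (2 * n + 3)) < m := by
    calc b ^ (c * (2 * n + 3)) ≤ (H ^ cR n) ^ (c * (2 * n + 3)) :=
          Nat.pow_le_pow_left hb _
      _ = H ^ (cR n * c * (2 * n + 3)) := by rw [← pow_mul, mul_assoc]
      _ < m := hbig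
  have hkey : ∀ V : ℤ, (b : ℤ) ^ (2 * (n * (n + 1)) + 1) ≤ V → |y + x ^ (n + 1)| ≤ V →
      (m : ℤ) ≤ V ^ (2 * n + 3) := by
    intro V hV hu
    obtain ⟨h1, h2⟩ := H8.AF.size_up (by omega) Cc.dn hb2 Cc.lead Cc.le ha0 hV hu hevZ
    rw [hm]
    rw [Int.abs_eq_natAbs] at h1 h2
    push_cast
    rw [Int.abs_eq_natAbs, Int.abs_eq_natAbs]
    exact max_le h1 h2
  have hbc : (b : ℤ) ^ (2 * (n * (n + 1)) + 1) ≤ (b : ℤ) ^ c :=
    pow_le_pow_right₀ (by exact_mod_cast (by omega : 1 ≤ b)) (hcA1.trans hc)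
  have hu : (b : ℤ) ^ c ≤ |y + x ^ (n + 1)| := by
    by_contra hcon
    push Not at hcon
    have h1 := hkey _ hbc hcon.le
    rw [← pow_mul] at h1
    have h2 : m ≤ b ^ (c * (2 * n + 3)) := by exact_mod_cast h1
    omega
  have hup : (m : ℤ) ≤ |y + x ^ (n + 1)| ^ (2 * n + 3) := hkey _ (hbc.trans hu) le_rfl
  have huR : (b : ℝ) ^ c ≤ |((y + x ^ (n + 1) : ℤ) : ℝ)| := by
    have : ((b : ℤ) ^ c : ℤ) ≤ |y + x ^ (n + 1)| := hu
    exact_mod_cast this
  obtain ⟨i, T, hT, hTx, hi⟩ := Cc.pt h4 (hcA2.trans hc) hevZ huR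
  -- the roots attached to the branches
  have hinf1 : INF1R k (H8.AW.fI d F') := by
    intro K _ _ hK r' e x' hr' he hx'
    exact inf_inf1K k K (fun X Y hXY => hINFR K hK X Y hXY)
      (n + 1) d F' a ha0 hev r' e x' hr' he hx'
  obtain ⟨h⟩ := exists_ThS' r β k t ht Cc.pd hinf1
  have hb1 : (b : ℝ) + 1 ≤ |((y + x ^ (n + 1) : ℤ) : ℝ)| := by
    have hb2R : (2 : ℝ) ≤ b := by exact_mod_cast hb2
    have hN2 : 2 ≤ c := by omega
    calc (b : ℝ) + 1 ≤ (b : ℝ) ^ 2 := by nlinarith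
      _ ≤ (b : ℝ) ^ c := pow_le_pow_right₀ (by linarith) hN2
      _ ≤ _ := huR
  obtain ⟨hmem, hreal⟩ := th_real hr Cc h4 h hb1 hT hTx hi
  refine ⟨⟨⟨d, b, F', Cc, i, T, y + x ^ (n + 1), a * x, hevZ, hTx, hi⟩, h, hmem, hreal, ?_⟩,
    huR, ?_⟩
  · -- InfX
    intro K _ _ hK X' Y' hXY
    obtain ⟨ι, hι⟩ : ∃ ι : PowerSeries K →+* LaurentSeries K, ι = HahnSeries.ofPowerSeries ℤ K :=
      ⟨_, rfl⟩
    have haK : (a : K) ≠ 0 := by exact_mod_cast ha0
    have haL : (a : LaurentSeries K) ≠ 0 := by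
      have h1 : (a : LaurentSeries K) = algebraMap K (LaurentSeries K) (a : K) := by
        rw [map_intCast]
      rw [h1]
      intro h2
      exact haK ((algebraMap K (LaurentSeries K)).injective (by rw [h2, map_zero]))
    set x1 : LaurentSeries K := Y' / (a : LaurentSeries K) with hx1
    set y1 : LaurentSeries K := X' - x1 ^ (n + 1) with hy1
    have h1 := hev (LaurentSeries K) x1 y1
    have h2 : y1 + x1 ^ (n + 1) = X' := by rw [hy1]; ring
    have h3 : (a : LaurentSeries K) * x1 = Y' := by rw [hx1]; field_simp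
    rw [h2, h3, hXY] at h1
    have h4' : vl F x1 y1 = 0 := by
      rcases mul_eq_zero.mp h1.symm with h5 | h5
      · exact absurd h5 (pow_ne_zero _ haL)
      · exact h5
    rcases hinf K hK x1 y1 h4' with ⟨hx, hy⟩ | h5
    · left
      rw [← h2]
      exact add_mem hy (pow_mem hx _)
    · exact Or.inr h5
  · have : ((m : ℤ) : ℝ) ≤ ((|y + x ^ (n + 1)| ^ (2 * n + 3) : ℤ) : ℝ) := by exact_mod_cast hup
    push_cast at this ⊢
    exact this

/-- exchange of the variables -/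
noncomputable def sw (F : MvPolynomial (Fin 2) ℤ) : MvPolynomial (Fin 2) ℤ :=
  MvPolynomial.rename (Equiv.swap (0 : Fin 2) 1) F

theorem vl_sw {S : Type} [CommRing S] (F : MvPolynomial (Fin 2) ℤ) (x y : S) :
    vl (sw F) x y = vl F y x := by
  unfold vl sw
  rw [MvPolynomial.eval₂_rename]
  congr 1
  funext i
  fin_cases i <;> simp

theorem redP (r n : ℕ) (hr : 1 ≤ r) (hn : 3 ≤ n) (c : ℕ) (hc : cA (n * (n + 1)) ≤ c) (β : ℚ)
    (hβ : 0 < β) (F : MvPolynomial (Fin 2) ℤ)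
    (hirr : Irreducible (MvPolynomial.map (Int.castRingHom ℚ) F)) (hdeg : F.totalDegree ≤ n)
    (hinf : INFN r β F) (H : ℕ) (hH2 : 2 ≤ H) (hH : ∀ m, |F.coeff m| ≤ (H : ℤ)) (x y : ℤ)
    (h0 : vl F x y = 0) (hbig : H ^ (cR n * c * (2 * n + 3)) < max x.natAbs y.natAbs) :
    ∃ Q : RPt r (n * (n + 1)) β, Q.P.Thr c ∧
      ((max x.natAbs y.natAbs : ℕ) : ℝ) ≤ |(Q.P.x : ℝ)| ^ (2 * n + 3) := by
  by_cases hy : ∃ m ∈ F.support, 1 ≤ m 1
  · exact redP_y r n hr hn c hc β hβ F hirr hdeg hy hinf H hH2 hH x y h0 hbig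
  -- now `F` does not contain the second variable
  push Not at hy
  have hinj : Function.Injective (Equiv.swap (0 : Fin 2) 1) := (Equiv.swap (0 : Fin 2) 1).injective
  have hirr' : Irreducible (MvPolynomial.map (Int.castRingHom ℚ) (sw F)) := by
    unfold sw
    rw [MvPolynomial.map_rename]
    exact (MulEquiv.irreducible_iff
      (MvPolynomial.renameEquiv ℚ (Equiv.swap (0 : Fin 2) 1))).2 hirr
  have hdeg' : (sw F).totalDegree ≤ n := (MvPolynomial.totalDegree_rename_le _ _).trans hdeg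
  have hcoeff : ∀ m : Fin 2 →₀ ℕ, (sw F).coeff (m.mapDomain (Equiv.swap (0 : Fin 2) 1)) = F.coeff m :=
    fun m => MvPolynomial.coeff_rename_mapDomain _ hinj F m
  have hsurj : ∀ m : Fin 2 →₀ ℕ, ∃ m' : Fin 2 →₀ ℕ, m = m'.mapDomain (Equiv.swap (0 : Fin 2) 1) := by
    intro m
    refine ⟨m.mapDomain (Equiv.swap (0 : Fin 2) 1), ?_⟩
    rw [← Finsupp.mapDomain_comp]
    have h1 : (⇑(Equiv.swap (0 : Fin 2) 1) ∘ ⇑(Equiv.swap (0 : Fin 2) 1)) = id := by
      funext i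
      fin_cases i <;> rfl
    rw [h1, Finsupp.mapDomain_id]
  have hH' : ∀ m, |(sw F).coeff m| ≤ (H : ℤ) := by
    intro m
    obtain ⟨m', rfl⟩ := hsurj m
    rw [hcoeff]
    exact hH m'
  have hinf' : INFN r β (sw F) := by
    intro K _ _ hK X Y hXY
    rw [vl_sw] at hXY
    rcases hinf K hK Y X hXY with ⟨h1, h2⟩ | h1
    · exact Or.inl ⟨h2, h1⟩
    · exact Or.inr h1
  have h0' : vl (sw F) y x = 0 := by rw [vl_sw]; exact h0
  -- there is a monomial with the first variable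
  have hx : ∃ m ∈ F.support, 1 ≤ m 0 := by
    by_contra hcon
    push Not at hcon
    have h1 : F = MvPolynomial.C (F.coeff 0) := by
      ext m
      rw [MvPolynomial.coeff_C]
      split_ifs with h
      · rw [← h]
      · by_contra h2
        have hm := MvPolynomial.mem_support_iff.2 h2
        apply h
        ext i
        fin_cases i
        · have := hcon m hm
          simp only [Finsupp.coe_zero, Pi.zero_apply]
          show 0 = m 0
          omega
        · have := hy m hm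
          simp only [Finsupp.coe_zero, Pi.zero_apply]
          show 0 = m 1
          omega
    have h2 : F.coeff 0 = 0 := by
      have h3 := h0
      rw [h1] at h3
      unfold vl at h3
      rw [MvPolynomial.eval₂_C] at h3
      simpa using h3
    rw [h2, map_zero] at h1
    rw [h1, map_zero] at hirr
    exact not_irreducible_zero hirr
  obtain ⟨m, hm, hm0⟩ := hx
  have hy' : ∃ m ∈ (sw F).support, 1 ≤ m 1 := by
    refine ⟨m.mapDomain (Equiv.swap (0 : Fin 2) 1), ?_, ?_⟩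
    · rw [MvPolynomial.mem_support_iff, hcoeff]
      exact MvPolynomial.mem_support_iff.1 hm
    · have h1 : (m.mapDomain (Equiv.swap (0 : Fin 2) 1)) 1 = m 0 := by
        have h2 := Finsupp.mapDomain_apply hinj m 0
        rwa [Equiv.swap_apply_left] at h2
      rw [h1]
      exact hm0
  rw [max_comm] at hbig ⊢
  exact redP_y r n hr hn c hc β hβ (sw F) hirr' hdeg' hy' hinf' H hH2 hH' y x h0' hbig

end Pool.Agent.H37.RR
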