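import Pool.Agent.H37.RR.AnP
import Pool.Agent.H37.RR.Pl
import Pool.Agent.H97.NW.NMP
import Pool.Agent.H97.NW.SPI

/-! # Special pairs do not exist

As `spec` (`Pool/Agent/H97/NW/SPE.lean`), with `planeN` and `anchor_plus` (one radical class, close
`p, q`) in place of `plane` and `all_curves`. With `E = C (1 + κ')`, `e1 = 2 np0 + 3`: the plane curve
`f` has height at most `B^κ'` and the integer point `(u0, w0)`, so `|u0| ≤ (q B^κ')^C` and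
`m ≤ |u0|^e1 ≤ q^(E e1) B^(E e1)`; but `m` is larger than the square of `q^(E e1)` and of `B^(E e1)`. -/

namespace Pool.Agent.H37.RR

open Finset Polynomial Pool.Agent.H72.ES Pool.Agent.H34.AC Pool.Agent.H8.AF H4AR Pool.Agent.H97.NW
  Pool.Agent.H8.RZ

/-- a power of the height is smaller than the coordinate -/
private theorem spz_lt {H : ℕ} (hH : 2 ≤ H) {e c : ℕ} (h : e < c) {m : ℝ} (hm : (H : ℝ) ^ c ≤ m) :
    (H : ℝ) ^ e < m :=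
  lt_of_lt_of_le (pow_lt_pow_right₀ (by exact_mod_cast (by omega : 1 < H)) h) hm

theorem spec_z (r n A : ℕ) (lam : ℝ) (hlam : 0 < lam) (hlam1 : lam ≤ 1) (hrl : 2 < r * lam) :
    ∃ c0 c1 : ℕ, ∀ (p q : ℕ), NP lam p q → ∀ (b0 b1 : ℚ), 0 < b0 → 0 < b1 →
      b1 * (q : ℚ) = (p : ℚ) * b0 → ∀ (Q0 : RPt r n b0) (Q1 : RPt r n b1),
      Q0.P.Thr c1 → Q1.P.Thr c1 → (c1 : ℝ) ≤ Real.log q → c1 * Real.log q ≤ Q0.P.ell →
      c1 * Real.log q ≤ Q1.P.ell → ¬ Spc A c0 Q0.P.x Q1.P.x := by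
  obtain ⟨np0, hnp0⟩ : ∃ np0, np0 = 2 * A + 3 := ⟨_, rfl⟩
  have hnp3 : 3 ≤ np0 := by omega
  obtain ⟨np, hnp⟩ : ∃ np, np = np0 * (np0 + 1) := ⟨_, rfl⟩
  obtain ⟨cn, hcn⟩ := nomix np0 hnp3
  obtain ⟨n', κ', hn', hκ', hplane⟩ := planeN n np
  obtain ⟨C, hCa⟩ := anchor_plus r n' lam hlam hlam1 hrl
  obtain ⟨E, hE⟩ : ∃ E, E = 2 * (C * (1 + κ')) := ⟨_, rfl⟩
  obtain ⟨e1, he1⟩ : ∃ e1, e1 = 2 * np0 + 3 := ⟨_, rfl⟩
  obtain ⟨cs, hcs⟩ : ∃ cs, cs = cn + cR np0 * ((2 * np + 1) * e1) + cR np0 * (E * e1) + E * e1 + 1 := ⟨_, rfl⟩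
  obtain ⟨c0, hc0⟩ := spc_irr A cs
  obtain ⟨Ex, hEx⟩ := exists_nat_ge (Real.exp C)
  refine ⟨c0, c0 + E * e1 + C + 1, ?_⟩
  intro p q hNP β b1' hβ hb1p hbb Q0 Q1 hT0 hT1 hcq hq0 hq1 hspc
  have hqq : (q : ℚ) ≠ 0 := by
    have := hNP.q1
    exact_mod_cast (by omega : q ≠ 0)
  obtain ⟨ω, hω⟩ : ∃ ω : ℚ, ω = (p : ℚ) / q := ⟨_, rfl⟩
  have hb1eq : b1' = ω * β := by
    rw [hω]
    field_simp
    exact hbb
  subst hb1eq
  obtain ⟨x0, hx0⟩ : ∃ x, x = Q0.P.x := ⟨_, rfl⟩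
  obtain ⟨x1, hx1⟩ : ∃ x, x = Q1.P.x := ⟨_, rfl⟩
  obtain ⟨b0, hb0⟩ : ∃ b, b = Q0.P.b := ⟨_, rfl⟩
  obtain ⟨b1, hb1⟩ : ∃ b, b = Q1.P.b := ⟨_, rfl⟩
  have hT0' : (b0 : ℝ) ^ (c0 + E * e1 + C + 1) ≤ |(x0 : ℝ)| := by
    rw [hb0, hx0]
    exact hT0
  have hT1' : (b1 : ℝ) ^ (c0 + E * e1 + C + 1) ≤ |(x1 : ℝ)| := by
    rw [hb1, hx1]
    exact hT1
  have hb02 : 2 ≤ b0 := hb0 ▸ Q0.P.C.b2
  have hb12 : 2 ≤ b1 := hb1 ▸ Q1.P.C.b2
  have hx0' : (2 : ℤ) ^ c0 ≤ |x0| := by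
    have h1 : (2 : ℝ) ^ c0 ≤ |(x0 : ℝ)| := by
      calc (2 : ℝ) ^ c0 ≤ (b0 : ℝ) ^ c0 := pow_le_pow_left₀ (by norm_num) (by exact_mod_cast hb02) _
        _ ≤ (b0 : ℝ) ^ (c0 + E * e1 + C + 1) :=
            pow_le_pow_right₀ (by exact_mod_cast (by omega : 1 ≤ b0)) (by omega)
        _ ≤ _ := hT0'
    exact_mod_cast h1
  have hx1' : (2 : ℤ) ^ c0 ≤ |x1| := by
    have h1 : (2 : ℝ) ^ c0 ≤ |(x1 : ℝ)| := by
      calc (2 : ℝ) ^ c0 ≤ (b1 : ℝ) ^ c0 := pow_le_pow_left₀ (by norm_num) (by exact_mod_cast hb12) _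
        _ ≤ (b1 : ℝ) ^ (c0 + E * e1 + C + 1) :=
            pow_le_pow_right₀ (by exact_mod_cast (by omega : 1 ≤ b1)) (by omega)
        _ ≤ _ := hT1'
    exact_mod_cast h1
  obtain ⟨P, H, hpirr, hpdeg, hpvar, hH2, hpH, hp0, hHx0, hHx1⟩ := hc0 x0 x1
    (by rw [hx0, hx1]; exact hspc) hx0' hx1'
  have hH1 : (1 : ℝ) ≤ H := by exact_mod_cast (by omega : 1 ≤ H)
  have hpdeg' : P.totalDegree ≤ np0 := by omega
  have hnm := hcn P hpirr hpdeg' hpvar H hH2 hpH x0 x1 hp0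
    ((pow_le_pow_right₀ hH1 (by omega)).trans hHx0) ((pow_le_pow_right₀ hH1 (by omega)).trans hHx1)
  obtain ⟨D, bp, Fp, a, ⟨Cp⟩, -, hbp, ha0, haH, hrel⟩ := redB np0 hnp3 P hpirr hpdeg' (hpvar 1) H hH2 hpH
  obtain ⟨B, hB⟩ : ∃ B, B = max bp (max H (max b0 b1)) := ⟨_, rfl⟩
  have hB1 : bp ≤ B := hB ▸ le_max_left _ _
  have hB2 : H ≤ B := hB ▸ (le_max_left _ _).trans (le_max_right _ _)
  have hB3 : b0 ≤ B := hB ▸ (le_max_left _ _).trans ((le_max_right _ _).trans (le_max_right _ _))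
  have hB4 : b1 ≤ B := hB ▸ (le_max_right _ _).trans ((le_max_right _ _).trans (le_max_right _ _))
  have hB2' : 2 ≤ B := hH2.trans hB2
  have hz0 : ev Q0.P.d Q0.P.F x0 Q0.P.y = 0 := by rw [hx0]; exact Q0.P.zero
  have hz1 : ev Q1.P.d Q1.P.F x1 Q1.P.y = 0 := by rw [hx1]; exact Q1.P.zero
  obtain ⟨f, w0, hfirr, hfdeg, hfinf, hfH, hf0⟩ := hplane r β ω hβ.ne' Q0.P.d Q1.P.d Q0.P.F Q1.P.F
    Q0.inf Q1.inf P hnm D (np0 + 1) Fp a ha0 hrel B Q0.P.C.dn Q1.P.C.dn (hnp ▸ Cp.dn)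
    (by rw [hnp]; nlinarith) hB2' Q0.P.C.lead Q1.P.C.lead Cp.lead
    (fun i j => (Q0.P.C.le i j).trans (by rw [← hb0]; exact_mod_cast hB3))
    (fun i j => (Q1.P.C.le i j).trans (by rw [← hb1]; exact_mod_cast hB4))
    (fun i j => (Cp.le i j).trans (by exact_mod_cast hB1)) (haH.trans (by exact_mod_cast hB2))
    x0 Q0.P.y x1 Q1.P.y hz0 hz1 hp0
  obtain ⟨u0, hu0⟩ : ∃ u, u = x1 + x0 ^ (np0 + 1) := ⟨_, rfl⟩
  rw [← hu0] at hf0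
  obtain ⟨m, hm⟩ : ∃ m : ℝ, m = max |(x0 : ℝ)| |(x1 : ℝ)| := ⟨_, rfl⟩
  have hm0 : |(x0 : ℝ)| ≤ m := hm ▸ le_max_left _ _
  have hm1 : |(x1 : ℝ)| ≤ m := hm ▸ le_max_right _ _
  have hHm : (H : ℝ) ^ cs ≤ m := hHx0.trans hm0
  have hevp : ev D Fp (x1 + x0 ^ (np0 + 1)) (a * x0) = 0 := by
    have h1 := hrel ℤ x0 x1
    rw [hp0, mul_zero] at h1
    have h2 : cst ℤ Fp = Fp := by
      funext i j
      simp [cst]
    rw [h2] at h1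
    simpa using h1
  have hbpH : (bp : ℝ) ≤ (H : ℝ) ^ cR np0 := by exact_mod_cast hbp
  have hbp2 : 2 ≤ bp := Cp.b2
  -- the size of `u0`
  have hsize : ∀ V : ℤ, (bp : ℤ) ^ (2 * np + 1) ≤ V → |u0| ≤ V → m ≤ ((V : ℤ) : ℝ) ^ e1 := by
    intro V hV hu
    obtain ⟨h1, h2⟩ := size_up Cp.d1 (hnp ▸ Cp.dn : D ≤ np) Cp.b2 Cp.lead Cp.le ha0 hV (hu0 ▸ hu) hevp
    rw [hm, he1]
    refine max_le ?_ ?_
    · exact_mod_cast h1
    · exact_mod_cast h2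
  have hbig : (bp : ℤ) ^ (2 * np + 1) ≤ |u0| := by
    by_contra hcon
    push Not at hcon
    have h1 := hsize _ le_rfl hcon.le
    have h2 : (((bp : ℤ) ^ (2 * np + 1) : ℤ) : ℝ) ^ e1 ≤ (H : ℝ) ^ (cR np0 * ((2 * np + 1) * e1)) := by
      push_cast
      rw [← pow_mul, pow_mul (H : ℝ)]
      exact pow_le_pow_left₀ (by positivity) hbpH _
    have h3 : (H : ℝ) ^ (cR np0 * ((2 * np + 1) * e1)) < m := spz_lt hH2 (by omega) hHm
    linarith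
  have hmu := hsize |u0| hbig le_rfl
  have hHf2 : 2 ≤ B ^ κ' := hB2'.trans (Nat.le_self_pow (by omega) _)
  have hq1' : 1 ≤ q := hNP.q1
  have hqR : (0 : ℝ) < q := by exact_mod_cast hq1'
  have hqR1 : (1 : ℝ) ≤ q := by exact_mod_cast hq1'
  have hCq : C ≤ q := by
    have h1 : (C : ℝ) ≤ Real.log q := le_trans (by exact_mod_cast (by omega : C ≤ c0 + E * e1 + C + 1)) hcq
    have h2 : Real.exp C ≤ q := (Real.le_log_iff_exp_le hqR).1 h1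
    have h3 : (C : ℝ) ≤ q := by
      have := Real.add_one_le_exp (C : ℝ)
      linarith
    exact_mod_cast h3
  have h := hCa p q hNP hCq f hfirr hfdeg (hω ▸ hfinf) (B ^ κ') hHf2 hfH u0 w0 hf0
  have h1 : u0.natAbs ≤ (q * B) ^ (C * (1 + κ')) := by
    refine ((le_max_left _ _).trans h).trans ?_
    have h2 : q * B ^ κ' ≤ (q * B) ^ (1 + κ') := by
      rw [pow_add, pow_one, mul_pow]
      have h3 : 1 ≤ B * q ^ κ' := Nat.mul_pos (by omega) (Nat.pow_pos (by omega))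
      calc q * B ^ κ' = q * B ^ κ' * 1 := by ring
        _ ≤ q * B ^ κ' * (B * q ^ κ') := Nat.mul_le_mul_left _ h3
        _ = q * B * (q ^ κ' * B ^ κ') := by ring
    calc (q * B ^ κ') ^ C ≤ ((q * B) ^ (1 + κ')) ^ C := Nat.pow_le_pow_left h2 _
      _ = (q * B) ^ (C * (1 + κ')) := by rw [← pow_mul, mul_comm (1 + κ')]
  have h2 : ((|u0| : ℤ) : ℝ) ≤ ((q : ℝ) * B) ^ (C * (1 + κ')) := by
    rw [Int.abs_eq_natAbs]
    exact_mod_cast h1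
  have hmpos : 0 < m := lt_of_lt_of_le (by positivity) (hT0'.trans hm0)
  have h3 : m ^ 2 ≤ (q : ℝ) ^ (E * e1) * (B : ℝ) ^ (E * e1) := by
    have h4 : m ≤ (((q : ℝ) * B) ^ (C * (1 + κ'))) ^ e1 :=
      hmu.trans (pow_le_pow_left₀ (by positivity) h2 _)
    calc m ^ 2 ≤ ((((q : ℝ) * B) ^ (C * (1 + κ'))) ^ e1) ^ 2 := pow_le_pow_left₀ hmpos.le h4 _
      _ = (q : ℝ) ^ (E * e1) * (B : ℝ) ^ (E * e1) := by
        rw [← mul_pow, ← pow_mul, ← pow_mul, hE]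
        congr 1
        ring
  have h4 : (bp : ℝ) ^ (E * e1) < m := by
    refine lt_of_le_of_lt (pow_le_pow_left₀ (by positivity) hbpH _) ?_
    rw [← pow_mul]
    exact spz_lt hH2 (by omega) hHm
  have h5 : (H : ℝ) ^ (E * e1) < m := spz_lt hH2 (by omega) hHm
  have h6 : (b0 : ℝ) ^ (E * e1) < m := spz_lt hb02 (by omega) (hT0'.trans hm0)
  have h7 : (b1 : ℝ) ^ (E * e1) < m := spz_lt hb12 (by omega) (hT1'.trans hm1)
  have h8 : (B : ℝ) ^ (E * e1) < m := by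
    rcases max_choice bp (max H (max b0 b1)) with h | h
    · rw [hB, h]; exact h4
    · rcases max_choice H (max b0 b1) with h' | h'
      · rw [hB, h, h']; exact h5
      · rcases max_choice b0 b1 with h'' | h''
        · rw [hB, h, h', h'']; exact h6
        · rw [hB, h, h', h'']; exact h7
  have h9 : (q : ℝ) ^ (E * e1) ≤ m := by
    refine le_trans ?_ hm0
    have hx0pos : 0 < |(x0 : ℝ)| := lt_of_lt_of_le (by positivity) hT0'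
    have h10 : ((c0 + E * e1 + C + 1 : ℕ) : ℝ) * Real.log q ≤ Real.log |(x0 : ℝ)| := by
      have h11 := hq0
      unfold Ptd.ell at h11
      rwa [← hx0] at h11
    rw [← Real.log_pow] at h10
    have h12 := (Real.log_le_log_iff (by positivity) hx0pos).1 h10
    exact (pow_le_pow_right₀ hqR1 (by omega)).trans h12
  have h13 : (q : ℝ) ^ (E * e1) * (B : ℝ) ^ (E * e1) < m ^ 2 := by
    calc (q : ℝ) ^ (E * e1) * (B : ℝ) ^ (E * e1) ≤ m * (B : ℝ) ^ (E * e1) :=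
          mul_le_mul_of_nonneg_right h9 (by positivity)
      _ < m * m := mul_lt_mul_of_pos_left h8 hmpos
      _ = m ^ 2 := by ring
  linarith

end Pool.Agent.H37.RR
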